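import Mathlib

/-! Flatness of ring maps, elementary criteria. -/

set_option autoImplicit false

namespace Pool.Agent.Q40.FF

section flat

variable {R S : Type*} [CommRing R] [CommRing S]

/-- the equational criterion for a ring map -/
theorem flat_iff (f : R →+* S) : f.Flat ↔ ∀ (l : ℕ) (x : Fin l → R) (b : Fin l → S),
    ∑ i, f (x i) * b i = 0 → ∃ (k : ℕ) (a : Fin l → Fin k → R) (y : Fin k → S),
      (∀ i, b i = ∑ j, f (a i j) * y j) ∧ ∀ j, ∑ i, x i * a i j = 0 := by
  let _ := f.toAlgebra
  have h1 : f.Flat ↔ Module.Flat R S := Iff.rfl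
  rw [h1, Module.Flat.iff_forall_isTrivialRelation]
  exact Iff.rfl

/-- linear independence from independence modulo the maximal ideal -/
theorem indep_of_flat [IsLocalRing R] (f : R →+* S) (hf : f.Flat) {ι : Type*} [Fintype ι]
    (v : ι → S) (h : ∀ c : ι → R, ∑ a, f (c a) * v a ∈ (IsLocalRing.maximalIdeal R).map f →
      ∀ a, c a ∈ IsLocalRing.maximalIdeal R)
    (c : ι → R) (hc : ∑ a, f (c a) * v a = 0) : c = 0 := by
  classical
  let _ := f.toAlgebra
  have h1 : Module.Flat R S := hf
  have h2 : LinearIndependent R v := by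
    apply Module.IsLocalRing.linearIndependent_of_flat
    rw [Fintype.linearIndependent_iff]
    intro g hg
    choose c hc using fun i => IsLocalRing.residue_surjective (R := R) (g i)
    have h3 : TensorProduct.mk R (IsLocalRing.ResidueField R) S 1 (∑ i, c i • v i) = 0 := by
      rw [map_sum, ← hg]
      refine Finset.sum_congr rfl fun i _ => ?_
      rw [map_smul, ← hc i]
      change c i • ((1 : IsLocalRing.ResidueField R) ⊗ₜ[R] v i) = IsLocalRing.residue R (c i) • ((1 : IsLocalRing.ResidueField R) ⊗ₜ[R] v i)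
      rw [← algebraMap_smul (IsLocalRing.ResidueField R) (c i)]
      rfl
    have h4 : ∑ i, c i • v i ∈ (IsLocalRing.maximalIdeal R) • (⊤ : Submodule R S) := by
      rw [← LinearMap.ker_tensorProductMk]
      exact h3
    rw [Ideal.smul_top_eq_map] at h4
    intro i
    rw [← hc i, IsLocalRing.residue_eq_zero_iff]
    apply h c
    have h5 : ∑ i, c i • v i = ∑ a, f (c a) * v a := rfl
    rw [← h5]
    exact h4
  have h3 := Fintype.linearIndependent_iff.1 h2 c hc
  exact funext h3

/-- Nakayama -/
theorem span_of_finite [IsLocalRing R] (f : R →+* S) {κ : Type*} [Fintype κ] (z : κ → S)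
    (hz : ∀ y, ∃ c : κ → R, y = ∑ j, f (c j) * z j) {ι : Type*} [Fintype ι] (v : ι → S)
    (h : ∀ y, ∃ c : ι → R, y - ∑ a, f (c a) * v a ∈ (IsLocalRing.maximalIdeal R).map f) (y : S) :
    ∃ c : ι → R, y = ∑ a, f (c a) * v a := by
  classical
  let _ := f.toAlgebra
  have hfin : (⊤ : Submodule R S).FG := by
    refine ⟨Finset.univ.image z, ?_⟩
    rw [eq_top_iff]
    intro y _
    rw [Finset.coe_image, Finset.coe_univ, Set.image_univ]
    obtain ⟨c, hc⟩ := hz y
    rw [hc]
    refine Submodule.sum_mem _ fun j _ => ?_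
    exact Submodule.smul_mem (Submodule.span R (Set.range z)) (c j) (Submodule.subset_span ⟨j, rfl⟩)
  have key : (⊤ : Submodule R S) ≤ Submodule.span R (Set.range v) := by
    apply Submodule.le_of_le_smul_of_le_jacobson_bot hfin
      (IsLocalRing.maximalIdeal_le_jacobson ⊥)
    intro y _
    obtain ⟨c, hc⟩ := h y
    have h1 : y = ∑ a, f (c a) * v a + (y - ∑ a, f (c a) * v a) := by ring
    rw [h1]
    refine Submodule.add_mem_sup ?_ ?_
    · refine Submodule.sum_mem _ fun j _ => ?_
      exact Submodule.smul_mem (Submodule.span R (Set.range v)) (c j)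
        (Submodule.subset_span ⟨j, rfl⟩)
    · rw [Ideal.smul_top_eq_map]
      exact hc
  have h2 : y ∈ Submodule.span R (Set.range v) := key trivial
  rw [Submodule.mem_span_range_iff_exists_fun] at h2
  obtain ⟨c, hc⟩ := h2
  exact ⟨c, hc.symm⟩

end flat

end Pool.Agent.Q40.FF
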