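import Pool.Agent.Q40.FF.Etale

/-! Descent of smoothness along finite free extensions. -/

set_option autoImplicit false

open Finset

namespace Pool.Agent.Q40.FF

section descent

variable {A C : Type*} [CommRing A] [CommRing C] [Algebra A C] {p : ℕ} [hp : Fact p.Prime]
  [CharP A p] [CharP C p]

omit [CharP A p] [CharP C p] hp in
/-- a retraction -/
theorem exists_retraction [Nontrivial C] {ι : Type*} [Fintype ι] (c : Module.Basis ι A C) :
    ∃ π : C →ₗ[A] A, π 1 = 1 := by
  classical
  have htop : Ideal.span (Set.range fun i => c.repr 1 i) = ⊤ := by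
    by_contra hne
    obtain ⟨m, hm, hle⟩ := Ideal.exists_le_maximal _ hne
    have hi : Nonempty ι := by
      by_contra h
      rw [not_nonempty_iff] at h
      have := c.repr.toEquiv.subsingleton
      exact not_subsingleton C this
    obtain ⟨i⟩ := hi
    have h1 : c.repr (c i) i = 1 := by simp
    have h2 : c i = ∑ j, c.repr 1 j • (c j * c i) := by
      have h3 : (1 : C) * c i = (∑ j, c.repr 1 j • c j) * c i := by
        rw [c.sum_repr]
      rw [one_mul, Finset.sum_mul] at h3
      exact h3.trans (Finset.sum_congr rfl fun j _ => by rw [smul_mul_assoc])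
    have h4 : c.repr (c i) i ∈ m := by
      rw [h2, map_sum, Finset.sum_apply']
      refine Ideal.sum_mem _ fun j _ => ?_
      rw [map_smul, Finsupp.smul_apply, smul_eq_mul]
      exact Ideal.mul_mem_right _ _ (hle (Ideal.subset_span ⟨j, rfl⟩))
    rw [h1] at h4
    exact hm.ne_top ((Ideal.eq_top_iff_one _).2 h4)
  have h1 : (1 : A) ∈ Ideal.span (Set.range fun i => c.repr 1 i) := by rw [htop]; trivial
  rw [Ideal.mem_span_range_iff_exists_fun] at h1
  obtain ⟨t, ht⟩ := h1
  refine ⟨∑ i, t i • c.coord i, ?_⟩
  simpa using ht

theorem flat_descent [Nontrivial C] {ι : Type*} [Fintype ι] (c : Module.Basis ι A C)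
    (h : (frobenius C p).Flat) : (frobenius A p).Flat := by
  classical
  obtain ⟨π, hπ⟩ := exists_retraction c
  rw [flat_iff] at h ⊢
  intro l x b hb
  obtain ⟨k, a, y, h1, h2⟩ := h l (fun i => algebraMap A C (x i)) (fun i => algebraMap A C (b i)) (by
    have := congrArg (algebraMap A C) hb
    rw [map_sum, map_zero] at this
    rw [← this]
    exact Finset.sum_congr rfl fun i _ => by
      rw [map_mul, frobenius_def, frobenius_def, map_pow])
  let e := Fintype.equivFin (Fin k × ι)
  refine ⟨Fintype.card (Fin k × ι), fun i s => c.repr (a i (e.symm s).1) (e.symm s).2,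
    fun s => π (c (e.symm s).2 ^ p * y (e.symm s).1), ?_, ?_⟩
  · intro i
    have h3 : algebraMap A C (b i) = ∑ j, ∑ l, c.repr (a i j) l ^ p • (c l ^ p * y j) := by
      rw [h1 i]
      refine Finset.sum_congr rfl fun j _ => ?_
      have h4 : frobenius C p (a i j) = ∑ l, c.repr (a i j) l ^ p • c l ^ p := by
        conv_lhs => rw [← c.sum_repr (a i j)]
        rw [map_sum]
        refine Finset.sum_congr rfl fun l _ => ?_
        rw [frobenius_def, smul_pow]
      rw [h4, Finset.sum_mul]
      exact Finset.sum_congr rfl fun l _ => by rw [smul_mul_assoc]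
    have h5 : b i = π (algebraMap A C (b i)) := by
      rw [Algebra.algebraMap_eq_smul_one, map_smul, hπ, smul_eq_mul, mul_one]
    rw [h5, h3, map_sum]
    rw [Equiv.sum_comp e.symm (fun s : Fin k × ι => frobenius A p (c.repr (a i s.1) s.2) *
      π (c s.2 ^ p * y s.1)), Fintype.sum_prod_type]
    refine Finset.sum_congr rfl fun j _ => ?_
    rw [map_sum]
    refine Finset.sum_congr rfl fun l _ => ?_
    rw [map_smul, frobenius_def, smul_eq_mul]
  · intro s
    have h3 := h2 (e.symm s).1
    have h4 := congrArg (fun z => c.repr z (e.symm s).2) h3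
    simp only [map_zero, Finsupp.coe_zero, Pi.zero_apply] at h4
    rw [← h4, map_sum, Finset.sum_apply']
    refine Finset.sum_congr rfl fun i _ => ?_
    rw [← Algebra.smul_def, map_smul, Finsupp.smul_apply, smul_eq_mul]

end descent

section smooth

variable {k : Type*} [Field k] [PerfectField k] {A C : Type*} [CommRing A] [CommRing C] [Algebra k A] [Algebra k C] [Algebra A C]
  [IsScalarTower k A C]

/-- **Descent of smoothness**: if a smooth algebra `C` over a perfect field of characteristic `p`
is a free module of finite rank over a subalgebra `A`, then `A` is smooth. -/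
theorem smooth_descent (p : ℕ) [hp : Fact p.Prime] [CharP k p] [Nontrivial C] {ι : Type*} [Fintype ι] (c : Module.Basis ι A C)
    [Algebra.Smooth k C] : Algebra.Smooth k A := by
  classical
  have hnt : Nontrivial A := (algebraMap A C).domain_nontrivial
  have h1 : CharP C p := charP_of_injective_algebraMap (algebraMap k C).injective p
  have h2 : CharP A p := charP_of_injective_algebraMap (algebraMap k A).injective p
  have hinj : Function.Injective (algebraMap A C) := by
    obtain ⟨π, hπ⟩ := exists_retraction c
    intro x y hxy
    have := congrArg π hxy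
    rwa [Algebra.algebraMap_eq_smul_one, Algebra.algebraMap_eq_smul_one, map_smul, map_smul, hπ,
      smul_eq_mul, smul_eq_mul, mul_one, mul_one] at this
  have hfg : (⊤ : Subalgebra k A).FG := by
    refine fg_of_fg_of_fg k A C (Algebra.FiniteType.out) ?_ hinj
    exact ⟨Finset.univ.image c, by
      rw [Finset.coe_image, Finset.coe_univ, Set.image_univ]; exact c.span_eq⟩
  have : Algebra.FiniteType k A := ⟨hfg⟩
  exact smooth_of_flat (p := p) (flat_descent c (flat_of_smooth (k := k) C))

end smooth

end Pool.Agent.Q40.FF
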