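import Pool.Agent.Q40.FF.Kunz

/-! Frobenius of smooth algebras over perfect fields is flat. -/

set_option autoImplicit false

open Finset TensorProduct

namespace Pool.Agent.Q40.FF

section square

theorem flat_square {P P' C C' : Type*} [CommRing P] [CommRing P'] [CommRing C] [CommRing C']
    (h : P →+* P') (g : P →+* C) (g' : P' →+* C') (F : C →+* C') (hcomm : F.comp g = g'.comp h)
    (hh : h.Flat) (hg : g.Etale) (hg' : g'.Etale) : F.Flat := by
  algebraize [h, g, g', F, F.comp g]
  have hT : IsScalarTower P P' C' := IsScalarTower.of_algebraMap_eq' hcomm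
  let T := P' ⊗[P] C
  let φ : T →ₐ[P'] C' := Algebra.TensorProduct.lift (Algebra.ofId P' C')
    ({ F with commutes' := fun r => rfl } : C →ₐ[P] C') (fun _ _ => Commute.all _ _)
  have h1 : (φ : T →+* C').Flat := by
    let _ := (φ : T →+* C').toAlgebra
    have : IsScalarTower P' T C' := IsScalarTower.of_algebraMap_eq' (by
      ext x
      exact (φ.commutes x).symm)
    have h2 : Algebra.FormallySmooth T C' := Algebra.FormallySmooth.of_restrictScalars P' T C'
    have h3 : Algebra.FinitePresentation T C' :=
      Algebra.FinitePresentation.of_restrict_scalars_finitePresentation P' T C'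
    have h4 : Algebra.Smooth T C' := ⟨h2, h3⟩
    exact (inferInstance : Module.Flat T C')
  have h2 : ((Algebra.TensorProduct.comm P C P').toRingEquiv : C ⊗[P] P' →+* T).Flat :=
    RingHom.Flat.of_bijective (Algebra.TensorProduct.comm P C P').bijective
  have h3 : (algebraMap C (C ⊗[P] P')).Flat := by
    rw [RingHom.flat_algebraMap_iff]
    infer_instance
  have h4 := (h3.comp h2).comp h1
  have h5 : (φ : T →+* C').comp (((Algebra.TensorProduct.comm P C P').toRingEquiv :
      C ⊗[P] P' →+* T).comp (algebraMap C (C ⊗[P] P'))) = F := by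
    ext c
    change φ ((Algebra.TensorProduct.comm P C P') (c ⊗ₜ[P] 1)) = F c
    rw [Algebra.TensorProduct.comm_tmul]
    change (Algebra.TensorProduct.lift _ _ _) (1 ⊗ₜ[P] c) = F c
    rw [Algebra.TensorProduct.lift_tmul, map_one, one_mul]
    rfl
  rw [h5] at h4
  exact h4

end square

section ps

/-- a dual basis for Frobenius -/
def PS (p : ℕ) (R : Type*) [CommRing R] : Prop :=
  ∃ (N : ℕ) (T : Fin N → R → R) (y : Fin N → R), (∀ a g h, T a (g + h) = T a g + T a h) ∧
    (∀ a f g, T a (f ^ p * g) = f * T a g) ∧ ∀ g, g = ∑ a, T a g ^ p * y a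

theorem PS.congr {p : ℕ} {R S : Type*} [CommRing R] [CommRing S] (e : R ≃+* S) (h : PS p R) :
    PS p S := by
  obtain ⟨N, T, y, h1, h2, h3⟩ := h
  refine ⟨N, fun a g => e (T a (e.symm g)), fun a => e (y a), ?_, ?_, ?_⟩
  · intro a g h
    beta_reduce
    rw [map_add, h1, map_add]
  · intro a f g
    beta_reduce
    rw [map_mul, map_pow, h2, map_mul, e.apply_symm_apply]
  · intro g
    conv_lhs => rw [← e.apply_symm_apply g, h3 (e.symm g)]
    rw [map_sum]
    refine Finset.sum_congr rfl fun a _ => ?_
    rw [map_mul, map_pow]

theorem PS.flat {p : ℕ} [Fact p.Prime] {R : Type*} [CommRing R] [CharP R p] (h : PS p R) :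
    (frobenius R p).Flat := by
  rw [flat_iff]
  intro l x b hb
  obtain ⟨N, T, y, h1, h2, h3⟩ := h
  refine ⟨N, fun i j => T j (b i), y, ?_, ?_⟩
  · intro i
    conv_lhs => rw [h3 (b i)]
    rfl
  · intro j
    have h0 : T j 0 = 0 := by
      have := h1 j 0 0
      rw [add_zero] at this
      simpa using this
    have hsum : ∀ (s : Finset (Fin l)) (u : Fin l → R), T j (∑ i ∈ s, u i) = ∑ i ∈ s, T j (u i) := by
      intro s u
      induction s using Finset.cons_induction with
      | empty => simpa using h0
      | cons i s hi ih => rw [Finset.sum_cons, Finset.sum_cons, h1, ih]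
    rw [← h0, ← hb, hsum]
    refine Finset.sum_congr rfl fun i _ => ?_
    rw [frobenius_def, h2]

open Polynomial in
theorem PS.polynomial {p : ℕ} [hp : Fact p.Prime] {R : Type*} [CommRing R] [CharP R p]
    (h : PS p R) : PS p R[X] := by
  classical
  obtain ⟨N, T, y, h1, h2, h3⟩ := h
  have hp0 : 0 < p := hp.out.pos
  have h0 : ∀ a, T a 0 = 0 := fun a => by
    have := h1 a 0 0
    rw [add_zero] at this
    simpa using this
  let U : Fin N → Fin p → R[X] → R[X] := fun a j g =>
    ∑ m ∈ Finset.range (g.natDegree + 1), monomial m (T a (g.coeff ((j : ℕ) + p * m)))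
  have hU : ∀ a j g m, (U a j g).coeff m = T a (g.coeff ((j : ℕ) + p * m)) := by
    intro a j g m
    simp only [U, finsetSum_coeff, coeff_monomial]
    by_cases hm : m ∈ Finset.range (g.natDegree + 1)
    · rw [Finset.sum_eq_single m]
      · rw [if_pos rfl]
      · intro b _ hb
        rw [if_neg hb]
      · intro h; exact absurd hm h
    · rw [Finset.sum_eq_zero]
      · have : g.natDegree < (j : ℕ) + p * m := by
          rw [Finset.mem_range, not_lt] at hm
          have : m ≤ p * m := Nat.le_mul_of_pos_left m hp0
          omega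
        rw [coeff_eq_zero_of_natDegree_lt this, h0]
      · intro b hb
        rw [if_neg]
        rintro rfl
        exact hm hb
  have hadd : ∀ a j g h, U a j (g + h) = U a j g + U a j h := by
    intro a j g h
    ext m
    rw [coeff_add, hU, hU, hU, coeff_add, h1]
  have hU0 : ∀ a j, U a j 0 = 0 := by
    intro a j
    ext m
    rw [hU, coeff_zero, h0, coeff_zero]
  have hmul : ∀ a j f g, U a j (f ^ p * g) = f * U a j g := by
    intro a j f g
    induction f using Polynomial.induction_on' with
    | add f1 f2 hf1 hf2 =>
      rw [add_pow_char, add_mul, hadd, hf1, hf2, add_mul]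
    | monomial u r =>
      ext m
      have e1 : (monomial u r) ^ p = monomial (u * p) (r ^ p) := by
        rw [monomial_pow]
      rw [hU, e1, ← C_mul_X_pow_eq_monomial, ← C_mul_X_pow_eq_monomial, mul_assoc, mul_assoc,
        coeff_C_mul, coeff_C_mul, coeff_X_pow_mul', coeff_X_pow_mul', h2]
      have hj := j.2
      by_cases hum : u ≤ m
      · have h4 : u * p ≤ (j : ℕ) + p * m := by
          have : u * p ≤ m * p := Nat.mul_le_mul_right p hum
          rw [mul_comm p m]
          omega
        rw [if_pos hum, if_pos h4, hU]
        congr 3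
        obtain ⟨e, rfl⟩ := Nat.exists_eq_add_of_le hum
        rw [Nat.add_sub_cancel_left]
        have : (j : ℕ) + p * (u + e) = u * p + ((j : ℕ) + p * e) := by ring
        rw [this, Nat.add_sub_cancel_left]
      · have h4 : ¬ u * p ≤ (j : ℕ) + p * m := by
          have : (m + 1) * p ≤ u * p := Nat.mul_le_mul_right p (by omega)
          rw [add_mul, one_mul] at this
          rw [mul_comm p m]
          omega
        rw [if_neg hum, if_neg h4, h0]
  have hrec : ∀ g : R[X], g = ∑ a, ∑ j, U a j g ^ p * (C (y a) * X ^ (j : ℕ)) := by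
    intro g
    induction g using Polynomial.induction_on' with
    | add f1 f2 hf1 hf2 =>
      conv_lhs => rw [hf1, hf2]
      rw [← Finset.sum_add_distrib]
      refine Finset.sum_congr rfl fun a _ => ?_
      rw [← Finset.sum_add_distrib]
      refine Finset.sum_congr rfl fun j _ => ?_
      rw [hadd, add_pow_char, add_mul]
    | monomial v r =>
      have e1 : ∀ a (j : Fin p), U a j (monomial v r) =
          if (j : ℕ) = v % p then monomial (v / p) (T a r) else 0 := by
        intro a j
        ext m
        rw [hU, coeff_monomial]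
        have hj := j.2
        split_ifs with h4 h5 h6
        · rw [coeff_monomial, if_pos]
          rw [h4]
          rw [Nat.add_mul_div_left _ _ hp0, Nat.div_eq_of_lt hj, zero_add]
        · exact absurd (by rw [h4, Nat.add_mul_mod_self_left, Nat.mod_eq_of_lt hj]) h5
        · rw [h0, coeff_monomial, if_neg]
          rintro rfl
          apply h4
          rw [h6]
          exact (Nat.mod_add_div v p).symm
        · rw [h0, coeff_zero]
      have hvp : v % p < p := Nat.mod_lt _ hp0
      have e2 : ∀ a, ∑ j : Fin p, U a j (monomial v r) ^ p * (C (y a) * X ^ (j : ℕ)) =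
          monomial v (T a r ^ p * y a) := by
        intro a
        rw [Finset.sum_eq_single (⟨v % p, hvp⟩ : Fin p)]
        · rw [e1, if_pos rfl, monomial_pow, C_mul_X_pow_eq_monomial, monomial_mul_monomial]
          have : v / p * p + v % p = v := by rw [mul_comm]; exact Nat.div_add_mod v p
          change (monomial (v / p * p + v % p)) _ = _
          rw [this]
        · intro b _ hb
          rw [e1, if_neg, zero_pow hp0.ne', zero_mul]
          intro h
          exact hb (Fin.ext h)
        · intro h; exact absurd (Finset.mem_univ _) h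
      rw [Finset.sum_congr rfl fun a _ => e2 a, ← map_sum, ← h3 r]
  refine ⟨N * p, fun c => U (finProdFinEquiv.symm c).1 (finProdFinEquiv.symm c).2,
    fun c => C (y (finProdFinEquiv.symm c).1) * X ^ ((finProdFinEquiv.symm c).2 : ℕ),
    fun c => hadd _ _, fun c => hmul _ _, fun g => ?_⟩
  conv_lhs => rw [hrec g]
  rw [← Fintype.sum_prod_type']
  rw [← Equiv.sum_comp finProdFinEquiv.symm]

theorem PS.mvPolynomial {p : ℕ} [hp : Fact p.Prime] {k : Type*} [CommRing k] [CharP k p]
    (h : PS p k) (n : ℕ) : PS p (MvPolynomial (Fin n) k) := by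
  induction n with
  | zero => exact h.congr (MvPolynomial.isEmptyRingEquiv k (Fin 0)).symm
  | succ n ih =>
    exact ih.polynomial.congr (MvPolynomial.finSuccEquiv k n).symm.toRingEquiv

theorem PS.of_perfect {p : ℕ} [hp : Fact p.Prime] {k : Type*} [CommRing k] [CharP k p]
    [PerfectRing k p] : PS p k := by
  refine ⟨1, fun _ g => (frobeniusEquiv k p).symm g, fun _ => 1, ?_, ?_, ?_⟩
  · intro _ g h
    beta_reduce
    rw [map_add]
  · intro _ f g
    beta_reduce
    rw [map_mul, ← frobenius_def, frobeniusEquiv_symm_apply_frobenius]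
  · intro g
    simp

end ps

section smooth

variable {k : Type*} [Field k] [PerfectField k] {p : ℕ} [hp : Fact p.Prime] [CharP k p]

theorem flat_of_standard (C : Type*) [CommRing C] [Algebra k C] [CharP C p]
    (h : (algebraMap k C).IsStandardSmooth) : (frobenius C p).Flat := by
  obtain ⟨n, g, hg1, hg2⟩ := h.exists_etale_mvPolynomial
  have : PerfectRing k p := PerfectField.toPerfectRing p
  have hP : PS p (MvPolynomial (Fin n) k) := PS.of_perfect.mvPolynomial n
  refine flat_square (frobenius (MvPolynomial (Fin n) k) p) g g (frobenius C p) ?_ hP.flat hg2 hg2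
  ext x
  · simp [frobenius_def]
  · simp [frobenius_def]

/-- Frobenius is flat on smooth algebras -/
theorem flat_of_smooth (C : Type*) [CommRing C] [Algebra k C] [CharP C p] [Algebra.Smooth k C] :
    (frobenius C p).Flat := by
  obtain ⟨s, hs, h2⟩ := Algebra.Smooth.exists_span_eq_top_isStandardSmooth k C
  refine RingHom.Flat.ofLocalizationSpanTarget _ s hs ?_
  rintro ⟨t, ht⟩
  change ((algebraMap C (Localization.Away t)).comp (frobenius C p)).Flat
  have h3 := h2 t ht
  rcases subsingleton_or_nontrivial (Localization.Away t) with hsub | hnt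
  · rw [flat_iff]
    intro l x b _
    exact ⟨0, fun _ => Fin.elim0, Fin.elim0, fun i => Subsingleton.elim _ _, fun j => j.elim0⟩
  have hch : CharP (Localization.Away t) p :=
    charP_of_injective_algebraMap (algebraMap k (Localization.Away t)).injective p
  have h4 : (frobenius (Localization.Away t) p).Flat := by
    refine flat_of_standard (k := k) _ ?_
    exact RingHom.isStandardSmooth_algebraMap.2 h3
  have h5 : (algebraMap C (Localization.Away t)).Flat := by
    rw [RingHom.flat_algebraMap_iff]
    exact IsLocalization.flat _ (Submonoid.powers t)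
  have h6 := h5.comp h4
  have h7 : (algebraMap C (Localization.Away t)).comp (frobenius C p) =
      (frobenius (Localization.Away t) p).comp (algebraMap C (Localization.Away t)) := by
    ext x
    simp [frobenius_def]
  rw [h7]
  exact h6

end smooth

end Pool.Agent.Q40.FF
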