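import Pool.Agent.Q40.FF.Lift

/-! Finitely generated algebras over perfect fields with flat Frobenius are smooth. -/

set_option autoImplicit false

open Finset

universe u v

namespace Pool.Agent.Q40.FF

section kunz

variable {k : Type u} {A : Type v} [Field k] [CommRing A] [Algebra k A] {p : ℕ}
  [hp : Fact p.Prime] [CharP k p] [CharP A p]

omit [CharP k p] in
/-- finitely generated algebras over a perfect field are finite over the `p`-th powers -/
theorem exists_ffinite (hperf : ∀ c : k, ∃ d : k, d ^ p = c) [Algebra.FiniteType k A] :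
    ∃ (n : ℕ) (x : Fin n → A), ∀ y : A, ∃ c : (Fin n → Fin p) → A,
      y = ∑ a, frobenius A p (c a) * mon x a := by
  classical
  obtain ⟨n, f, hf⟩ := (Algebra.FiniteType.iff_quotient_mvPolynomial'' (R := k) (S := A)).1
    inferInstance
  refine ⟨n, fun i => f (MvPolynomial.X i), fun y => ?_⟩
  obtain ⟨F, rfl⟩ := hf y
  induction F using MvPolynomial.induction_on with
  | C t =>
    obtain ⟨d, hd⟩ := hperf t
    refine ⟨fun a => if a = 0 then algebraMap k A d else 0, ?_⟩
    rw [Finset.sum_eq_single (0 : Fin n → Fin p)]
    · simp only [if_true, mon_zero, mul_one, frobenius_def, ← map_pow, hd]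
      exact f.commutes t
    · intro b _ hb
      simp only [if_neg hb, map_zero, zero_mul]
    · intro h
      exact absurd (Finset.mem_univ _) h
  | add F G hF hG =>
    obtain ⟨c, hc1⟩ := hF
    obtain ⟨d, hd1⟩ := hG
    refine ⟨fun a => c a + d a, ?_⟩
    rw [map_add, hc1, hd1, ← Finset.sum_add_distrib]
    exact Finset.sum_congr rfl fun a _ => by rw [map_add]; ring
  | mul_X F i hF =>
    obtain ⟨c, hc1⟩ := hF
    refine ⟨fun a => c ((shift i).symm a) *
      (if (((shift i).symm a) i : ℕ) = p - 1 then f (MvPolynomial.X i) else 1), ?_⟩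
    rw [map_mul, hc1]
    rw [reduced_mul]
    refine Finset.sum_congr rfl fun a _ => ?_
    rw [map_mul]
    congr 2
    split_ifs
    · rw [frobenius_def]
    · rw [map_one]

theorem comap_frobenius (P : Ideal A) [P.IsPrime] : P = P.comap (frobenius A p) := by
  ext x
  rw [Ideal.mem_comap, frobenius_def]
  exact ⟨fun h => Ideal.pow_mem_of_mem P h p hp.out.pos, fun h => Ideal.IsPrime.mem_of_pow_mem ‹_› p h⟩

/-- flatness of Frobenius passes to localizations -/
theorem flat_localization (hflat : (frobenius A p).Flat) (P : Ideal A) [P.IsPrime]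
    [CharP (Localization.AtPrime P) p] : (frobenius (Localization.AtPrime P) p).Flat := by
  have h1 := hflat.localRingHom P P (comap_frobenius P)
  have h2 : Localization.localRingHom P P (frobenius A p) (comap_frobenius P) =
      frobenius (Localization.AtPrime P) p := by
    apply Localization.localRingHom_unique
    intro x
    rw [frobenius_def, frobenius_def, map_pow]
  rwa [h2] at h1

theorem formallySmooth_localization [PerfectField k] [Algebra.FiniteType k A]
    (hflat : (frobenius A p).Flat) (P : Ideal A) [hP : P.IsMaximal] :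
    Algebra.FormallySmooth k (Localization.AtPrime P) := by
  classical
  have hperf : ∀ c : k, ∃ d : k, d ^ p = c := by
    intro c
    have : PerfectRing k p := PerfectField.toPerfectRing p
    obtain ⟨d, hd⟩ := (PerfectRing.bijective_frobenius (R := k) (p := p)).2 c
    exact ⟨d, hd⟩
  have hchar : CharP (Localization.AtPrime P) p :=
    charP_of_injective_algebraMap (algebraMap k (Localization.AtPrime P)).injective p
  have hn : IsNoetherianRing A := Algebra.FiniteType.isNoetherianRing k A
  have hn' : IsNoetherianRing (Localization.AtPrime P) :=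
    IsLocalization.isNoetherianRing P.primeCompl _ inferInstance
  -- residue field
  have hres : ∀ y : Localization.AtPrime P, ∃ c : Localization.AtPrime P,
      y - c ^ p ∈ IsLocalRing.maximalIdeal (Localization.AtPrime P) := by
    intro y
    obtain ⟨a, s, rfl⟩ := IsLocalization.exists_mk'_eq P.primeCompl y
    let _ : Field (A ⧸ P) := Ideal.Quotient.field P
    have hfin : Module.Finite k (A ⧸ P) := finite_of_finite_type_of_isJacobsonRing k (A ⧸ P)
    have hpf : PerfectField (A ⧸ P) := Algebra.IsAlgebraic.perfectField k
    have hch : CharP (A ⧸ P) p :=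
      charP_of_injective_algebraMap (algebraMap k (A ⧸ P)).injective p
    have hpr : PerfectRing (A ⧸ P) p := PerfectField.toPerfectRing p
    have hs : Ideal.Quotient.mk P (s : A) ≠ 0 := by
      intro h
      exact s.2 (Ideal.Quotient.eq_zero_iff_mem.1 h)
    obtain ⟨cb, hcb⟩ := (PerfectRing.bijective_frobenius (R := A ⧸ P) (p := p)).2
      (Ideal.Quotient.mk P a / Ideal.Quotient.mk P (s : A))
    obtain ⟨c, rfl⟩ := Ideal.Quotient.mk_surjective cb
    refine ⟨algebraMap A _ c, ?_⟩
    beta_reduce at hcb
    rw [eq_div_iff hs, ← map_pow, ← map_mul, Ideal.Quotient.eq] at hcb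
    have h1 : IsLocalization.mk' (Localization.AtPrime P) a s - algebraMap A _ c ^ p =
        - (algebraMap A (Localization.AtPrime P) (c ^ p * s - a) *
          IsLocalization.mk' (Localization.AtPrime P) 1 s) := by
      have h2 : IsLocalization.mk' (Localization.AtPrime P) a s =
          algebraMap A _ a * IsLocalization.mk' (Localization.AtPrime P) 1 s := by
        rw [IsLocalization.mul_mk'_eq_mk'_of_mul, mul_one]
      have h3 : algebraMap A (Localization.AtPrime P) s *
          IsLocalization.mk' (Localization.AtPrime P) 1 s = 1 := by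
        rw [IsLocalization.mul_mk'_eq_mk'_of_mul, mul_one]
        exact IsLocalization.mk'_self _ _
      rw [h2, map_sub, map_mul, map_pow]
      linear_combination (algebraMap A (Localization.AtPrime P) c ^ p) * h3
    rw [h1]
    apply neg_mem
    apply Ideal.mul_mem_right
    rw [IsLocalization.AtPrime.to_map_mem_maximal_iff (Localization.AtPrime P) P]
    exact hcb
  -- finiteness
  obtain ⟨n, x, hx⟩ := exists_ffinite (k := k) (A := A) (p := p) hperf
  have hx' : ∀ y : Localization.AtPrime P, ∃ c : (Fin n → Fin p) → Localization.AtPrime P,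
      y = ∑ a, frobenius _ p (c a) * algebraMap A _ (mon x a) := by
    intro y
    obtain ⟨a, s, rfl⟩ := IsLocalization.exists_mk'_eq P.primeCompl y
    obtain ⟨c, hc⟩ := hx (a * (s : A) ^ (p - 1))
    set t := IsLocalization.mk' (Localization.AtPrime P) (1 : A) s with ht
    have h3 : algebraMap A (Localization.AtPrime P) s * t = 1 := by
      rw [ht, IsLocalization.mul_mk'_eq_mk'_of_mul, mul_one]
      exact IsLocalization.mk'_self _ _
    refine ⟨fun a => algebraMap A _ (c a) * t, ?_⟩
    have h2 : IsLocalization.mk' (Localization.AtPrime P) a s = algebraMap A _ a * t := by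
      rw [ht, IsLocalization.mul_mk'_eq_mk'_of_mul, mul_one]
    have h4 : algebraMap A (Localization.AtPrime P) a * t =
        algebraMap A _ (a * (s : A) ^ (p - 1)) * t ^ p := by
      have h5 : algebraMap A (Localization.AtPrime P) s ^ (p - 1) * t ^ (p - 1) = 1 := by
        rw [← mul_pow, h3, one_pow]
      have h6 : t ^ p = t ^ (p - 1) * t := by
        rw [← pow_succ, Nat.sub_add_cancel hp.out.pos]
      rw [map_mul, map_pow, h6]
      linear_combination (- algebraMap A (Localization.AtPrime P) a * t) * h5
    rw [h2, h4, hc, map_sum, Finset.sum_mul]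
    refine Finset.sum_congr rfl fun b _ => ?_
    rw [map_mul, frobenius_def, frobenius_def, map_pow, mul_pow]
    ring
  obtain ⟨e, z, h1, h2⟩ := exists_pbasis (p := p) (flat_localization hflat P) hres _ hx'
  exact formallySmooth_of_pbasis (p := p) hperf z h1 h2

/-- **Kunz**: a finitely generated algebra over a perfect field whose Frobenius is flat is
smooth. -/
theorem smooth_of_flat [PerfectField k] [Algebra.FiniteType k A]
    (hflat : (frobenius A p).Flat) : Algebra.Smooth k A := by
  have hn : IsNoetherianRing A := Algebra.FiniteType.isNoetherianRing k A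
  have hfp : Algebra.FinitePresentation k A := Algebra.FinitePresentation.of_finiteType.1
    inferInstance
  refine ⟨?_, hfp⟩
  rw [← Algebra.smoothLocus_eq_univ_iff]
  rw [Set.eq_univ_iff_forall]
  intro P
  obtain ⟨m, hm, hPm⟩ := Ideal.exists_le_maximal P.asIdeal P.2.ne_top
  have h1 : (⟨m, hm.isPrime⟩ : PrimeSpectrum A) ∈ Algebra.smoothLocus k A :=
    formallySmooth_localization (p := p) hflat m
  have h2 : IsOpen (Algebra.smoothLocus k A) := Algebra.isOpen_smoothLocus
  have h3 : P ⤳ (⟨m, hm.isPrime⟩ : PrimeSpectrum A) :=
    (PrimeSpectrum.le_iff_specializes P _).1 hPm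
  exact h2.stableUnderGeneralization h3 h1

end kunz

end Pool.Agent.Q40.FF
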