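import Pool.Agent.Q40.FF.Pb

/-! A `p`-basis gives formal smoothness over a perfect field. -/

set_option autoImplicit false

open Finset

universe u v

namespace Pool.Agent.Q40.FF

section lift

variable {k : Type u} {O : Type v} [Field k] [CommRing O] [Algebra k O] {p : ℕ}
  [hp : Fact p.Prime] [CharP k p] [CharP O p] {e : ℕ}

theorem pow_eq_of_sub_mem {B : Type*} [CommRing B] [CharP B p] {I : Ideal B} (hI : I ^ 2 = ⊥)
    {u v : B} (h : u - v ∈ I) : u ^ p = v ^ p := by
  have h1 : (u - v) ^ p = 0 := by
    have h2 : (u - v) ^ 2 ∈ I ^ 2 := Ideal.pow_mem_pow h 2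
    rw [hI, Ideal.mem_bot] at h2
    have h3 : 2 ≤ p := hp.out.two_le
    obtain ⟨m, hm⟩ := Nat.exists_eq_add_of_le h3
    rw [hm, pow_add, h2, zero_mul]
  rw [sub_pow_char] at h1
  exact sub_eq_zero.1 h1

theorem formallySmooth_of_pbasis (hperf : ∀ c : k, ∃ d : k, d ^ p = c) (x : Fin e → O)
    (h1 : ∀ c : (Fin e → Fin p) → O, ∑ a, frobenius O p (c a) * mon x a = 0 → c = 0)
    (h2 : ∀ y, ∃ c : (Fin e → Fin p) → O, y = ∑ a, frobenius O p (c a) * mon x a) :
    Algebra.FormallySmooth k O := by
  classical
  have hp0 : 0 < p := hp.out.pos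
  apply Algebra.FormallySmooth.of_comp_surjective
  intro B _ _ I hI g
  rcases subsingleton_or_nontrivial B with hB | hB
  · refine ⟨{ toFun := fun _ => 0
              map_one' := Subsingleton.elim _ _
              map_mul' := fun _ _ => Subsingleton.elim _ _
              map_zero' := Subsingleton.elim _ _
              map_add' := fun _ _ => Subsingleton.elim _ _
              commutes' := fun _ => Subsingleton.elim _ _ }, ?_⟩
    apply AlgHom.ext
    intro y
    have : Subsingleton (B ⧸ I) := (Ideal.Quotient.mk_surjective (I := I)).subsingleton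
    exact Subsingleton.elim _ _
  have hBp : CharP B p := charP_of_injective_algebraMap (algebraMap k B).injective p
  choose σ hσ using fun a : O => Ideal.Quotient.mk_surjective (g a)
  have hpow : ∀ {u v : B}, u - v ∈ I → u ^ p = v ^ p := fun h => pow_eq_of_sub_mem hI h
  have hmem : ∀ {u v : B}, Ideal.Quotient.mk I u = Ideal.Quotient.mk I v → u - v ∈ I :=
    fun h => Ideal.Quotient.eq.1 h
  let ψ : O →+* B :=
    { toFun := fun a => σ a ^ p
      map_one' := by
        change σ 1 ^ p = 1
        rw [hpow (v := 1) (hmem (by rw [hσ, map_one, map_one])), one_pow]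
      map_mul' := fun a b => by
        change σ (a * b) ^ p = σ a ^ p * σ b ^ p
        rw [hpow (v := σ a * σ b) (hmem (by rw [hσ, map_mul, map_mul, hσ, hσ])), mul_pow]
      map_zero' := by
        change σ 0 ^ p = 0
        rw [hpow (v := 0) (hmem (by rw [hσ, map_zero, map_zero])), zero_pow hp0.ne']
      map_add' := fun a b => by
        change σ (a + b) ^ p = σ a ^ p + σ b ^ p
        rw [hpow (v := σ a + σ b) (hmem (by rw [hσ, map_add, map_add, hσ, hσ])),
          add_pow_char] }
  have hψ : ∀ a, ψ a = σ a ^ p := fun a => rfl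
  have hψ' : ∀ a u, Ideal.Quotient.mk I u = g a → ψ a = u ^ p := by
    intro a u hu
    rw [hψ]
    exact hpow (hmem (by rw [hσ, hu]))
  let Φ : MvPolynomial (Fin e) O →+* O := MvPolynomial.eval₂Hom (frobenius O p) x
  let Ψ : MvPolynomial (Fin e) O →+* B := MvPolynomial.eval₂Hom ψ (σ ∘ x)
  have red : ∀ F : MvPolynomial (Fin e) O, ∃ c : (Fin e → Fin p) → O,
      Φ F = ∑ a, frobenius O p (c a) * mon x a ∧ Ψ F = ∑ a, ψ (c a) * mon (σ ∘ x) a := by
    intro F
    induction F using MvPolynomial.induction_on with
    | C t =>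
      refine ⟨fun a => if a = 0 then t else 0, ?_, ?_⟩
      · rw [Finset.sum_eq_single (0 : Fin e → Fin p)]
        · simp [Φ, mon_zero]
        · intro b _ hb
          simp only [if_neg hb, map_zero, zero_mul]
        · intro h
          exact absurd (Finset.mem_univ _) h
      · rw [Finset.sum_eq_single (0 : Fin e → Fin p)]
        · simp [Ψ, mon_zero]
        · intro b _ hb
          simp only [if_neg hb, map_zero, zero_mul]
        · intro h
          exact absurd (Finset.mem_univ _) h
    | add F G hF hG =>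
      obtain ⟨c, hc1, hc2⟩ := hF
      obtain ⟨d, hd1, hd2⟩ := hG
      refine ⟨fun a => c a + d a, ?_, ?_⟩
      · rw [map_add, hc1, hd1, ← Finset.sum_add_distrib]
        exact Finset.sum_congr rfl fun a _ => by rw [map_add]; ring
      · rw [map_add, hc2, hd2, ← Finset.sum_add_distrib]
        exact Finset.sum_congr rfl fun a _ => by rw [map_add]; ring
    | mul_X F i hF =>
      obtain ⟨c, hc1, hc2⟩ := hF
      refine ⟨fun a => c ((shift i).symm a) *
        (if (((shift i).symm a) i : ℕ) = p - 1 then x i else 1), ?_, ?_⟩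
      · rw [map_mul, hc1]
        have : Φ (MvPolynomial.X i) = x i := by simp [Φ]
        rw [this, reduced_mul]
        refine Finset.sum_congr rfl fun a _ => ?_
        rw [map_mul]
        congr 2
        split_ifs
        · rw [frobenius_def]
        · rw [map_one]
      · rw [map_mul, hc2]
        have : Ψ (MvPolynomial.X i) = (σ ∘ x) i := by simp [Ψ]
        rw [this, reduced_mul]
        refine Finset.sum_congr rfl fun a _ => ?_
        rw [map_mul]
        congr 2
        split_ifs
        · rw [hψ]; rfl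
        · rw [map_one]
  have hker : RingHom.ker Φ ≤ RingHom.ker Ψ := by
    intro F hF
    rw [RingHom.mem_ker] at hF ⊢
    obtain ⟨c, hc1, hc2⟩ := red F
    rw [hF] at hc1
    have := h1 c hc1.symm
    subst this
    rw [hc2]
    exact Finset.sum_eq_zero fun a _ => by simp
  have hsurj : Function.Surjective Φ := by
    intro y
    obtain ⟨c, hc⟩ := h2 y
    refine ⟨∑ a, MvPolynomial.C (c a) * ∏ i, MvPolynomial.X i ^ (a i : ℕ), ?_⟩
    rw [hc, map_sum]
    refine Finset.sum_congr rfl fun a _ => ?_
    simp [Φ, mon]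
  let h : O →+* B := RingHom.liftOfSurjective Φ hsurj ⟨Ψ, hker⟩
  have hh : ∀ F, h (Φ F) = Ψ F := fun F => RingHom.liftOfRightInverse_comp_apply _ _ _ _ F
  have hcomm : ∀ F, Ideal.Quotient.mk I (Ψ F) = g (Φ F) := by
    intro F
    have : (Ideal.Quotient.mk I).comp Ψ = (g : O →+* B ⧸ I).comp Φ := by
      apply MvPolynomial.ringHom_ext
      · intro t
        simp only [RingHom.comp_apply, Φ, Ψ, MvPolynomial.coe_eval₂Hom, MvPolynomial.eval₂_C]
        rw [hψ, map_pow, hσ, frobenius_def]
        simp
      · intro i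
        simp only [RingHom.comp_apply, Φ, Ψ, MvPolynomial.coe_eval₂Hom, MvPolynomial.eval₂_X]
        simp [hσ]
    exact congrArg (fun q => q F) this
  refine ⟨{ h with commutes' := ?_ }, ?_⟩
  · intro c
    obtain ⟨d, hd⟩ := hperf c
    change h (algebraMap k O c) = algebraMap k B c
    have h3 : algebraMap k O c = Φ (MvPolynomial.C (algebraMap k O d)) := by
      simp only [Φ, MvPolynomial.coe_eval₂Hom, MvPolynomial.eval₂_C]
      rw [frobenius_def, ← map_pow, hd]
    rw [h3, hh]
    simp only [Ψ, MvPolynomial.coe_eval₂Hom, MvPolynomial.eval₂_C]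
    rw [hψ' (algebraMap k O d) (algebraMap k B d) (by
      rw [AlgHom.commutes]; rfl), ← map_pow, hd]
  · apply AlgHom.ext
    intro y
    obtain ⟨F, rfl⟩ := hsurj y
    change Ideal.Quotient.mk I (h (Φ F)) = g (Φ F)
    rw [hh, hcomm]

end lift

end Pool.Agent.Q40.FF
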