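import Pool.Agent.Q40.FF.Basic

/-! Reduced monomials and Lech independence. -/

set_option autoImplicit false

open Finset

namespace Pool.Agent.Q40.FF

section mono

variable {S : Type*} [CommRing S] {p e : ℕ} [NeZero p]

/-- the reduced monomials -/
def mon (z : Fin e → S) (a : Fin e → Fin p) : S := ∏ i, z i ^ (a i : ℕ)

omit [NeZero p] in
theorem map_mon {T : Type*} [CommRing T] (f : S →+* T) (z : Fin e → S) (a : Fin e → Fin p) :
    f (mon z a) = mon (f ∘ z) a := by
  simp [mon]

/-- the shift of the exponents -/
def shift (i : Fin e) : (Fin e → Fin p) ≃ (Fin e → Fin p) := Equiv.addRight (Pi.single i 1)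

theorem mon_mul (z : Fin e → S) (a : Fin e → Fin p) (i : Fin e) :
    mon z a * z i = (if (a i : ℕ) = p - 1 then z i ^ p else 1) * mon z (shift i a) := by
  classical
  have hp : 0 < p := NeZero.pos p
  have h1 : ∀ j ∈ univ.erase i, z j ^ ((shift i a) j : ℕ) = z j ^ (a j : ℕ) := by
    intro j hj
    have : shift i a j = a j := by
      simp [shift, Pi.single_eq_of_ne (Finset.ne_of_mem_erase hj)]
    rw [this]
  rw [mon, mon, ← Finset.mul_prod_erase univ _ (Finset.mem_univ i),
    ← Finset.mul_prod_erase univ (fun j => z j ^ ((shift i a) j : ℕ)) (Finset.mem_univ i),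
    Finset.prod_congr rfl h1]
  have h2 : z i ^ (a i : ℕ) * z i = (if (a i : ℕ) = p - 1 then z i ^ p else 1) *
      z i ^ ((shift i a) i : ℕ) := by
    have h3 : (shift i a) i = a i + 1 := by simp [shift]
    rw [h3]
    split_ifs with h4
    · have h5 : ((a i + 1 : Fin p) : ℕ) = 0 := by
        rw [Fin.val_add]
        rcases Nat.lt_or_ge 1 p with hp1 | hp1
        · have : ((1 : Fin p) : ℕ) = 1 := by
            rw [Fin.val_one', Nat.mod_eq_of_lt hp1]
          rw [this, h4, Nat.sub_add_cancel hp, Nat.mod_self]
        · have : p = 1 := by omega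
          subst this
          simp
      rw [h5, h4, ← pow_succ, Nat.sub_add_cancel hp]
      simp
    · have ha : (a i : ℕ) < p := (a i).2
      have h5 : ((a i + 1 : Fin p) : ℕ) = (a i : ℕ) + 1 := by
        rw [Fin.val_add]
        have : ((1 : Fin p) : ℕ) = 1 := by
          rw [Fin.val_one', Nat.mod_eq_of_lt (by omega)]
        rw [this, Nat.mod_eq_of_lt (by omega)]
      rw [h5, pow_succ, one_mul]
  calc _ = (z i ^ (a i : ℕ) * z i) * ∏ x ∈ univ.erase i, z x ^ (a x : ℕ) := by ring
    _ = _ := by rw [h2]; ring

theorem mon_zero (z : Fin e → S) : mon z (0 : Fin e → Fin p) = 1 := by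
  simp [mon]

/-- a general recursion -/
theorem reduced_mul (z : Fin e → S) (i : Fin e) (c : (Fin e → Fin p) → S) :
    (∑ a, c a * mon z a) * z i = ∑ a, (c ((shift i).symm a) *
      (if (((shift i).symm a) i : ℕ) = p - 1 then z i ^ p else 1)) * mon z a := by
  rw [Finset.sum_mul]
  rw [← Equiv.sum_comp (shift (p := p) i) (fun a => (c ((shift i).symm a) *
      (if (((shift i).symm a) i : ℕ) = p - 1 then z i ^ p else 1)) * mon z a)]
  refine Finset.sum_congr rfl fun a _ => ?_
  simp only [Equiv.symm_apply_apply]
  rw [mul_assoc, mon_mul]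
  ring

end mono

section lech

variable {O : Type*} [CommRing O] {e : ℕ}

/-- independence in the sense of Lech -/
def Ind (f : Fin e → O) : Prop :=
  ∀ a : Fin e → O, ∑ i, a i * f i = 0 → ∀ i, a i ∈ Ideal.span (Set.range f)

open Classical in
theorem mem_span_iff (f : Fin e → O) (y : O) :
    y ∈ Ideal.span (Set.range f) ↔ ∃ c : Fin e → O, y = ∑ i, c i * f i := by
  rw [Ideal.mem_span_range_iff_exists_fun]
  constructor
  · rintro ⟨c, hc⟩; exact ⟨c, hc.symm⟩
  · rintro ⟨c, hc⟩; exact ⟨c, hc.symm⟩

open Classical in
theorem Ind.update {f : Fin e → O} (hf : Ind f) {j : Fin e} {g h : O} (hj : f j = g * h) :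
    Ind (Function.update f j g) := by
  intro a ha
  -- notation: the sum over the other indices
  have split : ∀ (u : Fin e → O) (c : Fin e → O), ∑ i, c i * u i = c j * u j +
      ∑ i ∈ univ.erase j, c i * u i := fun u c =>
    (Finset.add_sum_erase univ (fun i => c i * u i) (Finset.mem_univ j)).symm
  have hoff : ∀ c : Fin e → O, ∑ i ∈ univ.erase j, c i * Function.update f j g i =
      ∑ i ∈ univ.erase j, c i * f i := fun c => by
    refine Finset.sum_congr rfl fun i hi => ?_
    rw [Function.update_of_ne (Finset.ne_of_mem_erase hi)]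
  have ha' : a j * g + ∑ i ∈ univ.erase j, a i * f i = 0 := by
    rw [split, hoff, Function.update_self] at ha
    exact ha
  -- first, a j lies in the ideal of f
  have h1 : a j ∈ Ideal.span (Set.range f) := by
    have h2 : ∑ i, (if i = j then a j else h * a i) * f i = 0 := by
      rw [split f]
      rw [if_pos rfl]
      have h3 : ∑ i ∈ univ.erase j, (if i = j then a j else h * a i) * f i =
          h * ∑ i ∈ univ.erase j, a i * f i := by
        rw [Finset.mul_sum]
        refine Finset.sum_congr rfl fun i hi => ?_
        rw [if_neg (Finset.ne_of_mem_erase hi)]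
        ring
      rw [h3, hj]
      linear_combination h * ha'
    have := hf _ h2 j
    rw [if_pos rfl] at this
    exact this
  have hle : Ideal.span (Set.range f) ≤ Ideal.span (Set.range (Function.update f j g)) := by
    rw [Ideal.span_le]
    rintro _ ⟨i, rfl⟩
    by_cases hi : i = j
    · subst hi
      rw [hj]
      apply Ideal.mul_mem_right
      apply Ideal.subset_span
      exact ⟨i, Function.update_self _ _ _⟩
    · apply Ideal.subset_span
      exact ⟨i, Function.update_of_ne hi _ _⟩
  intro i
  by_cases hi : i = j
  · subst hi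
    exact hle h1
  · obtain ⟨b, hb⟩ := (mem_span_iff f _).1 h1
    rw [split f] at hb
    have h2 : ∑ i, (if i = j then b j * g else a i + b i * g) * f i = 0 := by
      rw [split f, if_pos rfl]
      have h3 : ∑ i ∈ univ.erase j, (if i = j then b j * g else a i + b i * g) * f i =
          ∑ i ∈ univ.erase j, a i * f i + g * ∑ i ∈ univ.erase j, b i * f i := by
        rw [Finset.mul_sum, ← Finset.sum_add_distrib]
        refine Finset.sum_congr rfl fun i hi => ?_
        rw [if_neg (Finset.ne_of_mem_erase hi)]
        ring
      rw [h3]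
      linear_combination ha' - g * hb
    have h4 := hf _ h2 i
    rw [if_neg hi] at h4
    have h5 : b i * g ∈ Ideal.span (Set.range (Function.update f j g)) := by
      apply Ideal.mul_mem_left
      apply Ideal.subset_span
      exact ⟨j, Function.update_self _ _ _⟩
    have h6 : a i = (a i + b i * g) - b i * g := by ring
    rw [h6]
    exact Ideal.sub_mem _ (hle h4) h5

open Classical in
theorem Ind.cancel {f : Fin e → O} (hf : Ind f) {j : Fin e} {g h : O} (hj : f j = g * h)
    {y : O} (hy : y * g ∈ Ideal.span (Set.range f)) :
    y ∈ Ideal.span (Set.range (Function.update f j h)) := by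
  have split : ∀ (u : Fin e → O) (c : Fin e → O), ∑ i, c i * u i = c j * u j +
      ∑ i ∈ univ.erase j, c i * u i := fun u c =>
    (Finset.add_sum_erase univ (fun i => c i * u i) (Finset.mem_univ j)).symm
  obtain ⟨c, hc⟩ := (mem_span_iff f _).1 hy
  rw [split f] at hc
  -- (y - c j h) g = sum of the others; multiply by h
  have h2 : ∑ i, (if i = j then y - c j * h else - (h * c i)) * f i = 0 := by
    rw [split f, if_pos rfl]
    have h3 : ∑ i ∈ univ.erase j, (if i = j then y - c j * h else - (h * c i)) * f i =
        - h * ∑ i ∈ univ.erase j, c i * f i := by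
      rw [Finset.mul_sum]
      refine Finset.sum_congr rfl fun i hi => ?_
      rw [if_neg (Finset.ne_of_mem_erase hi)]
      ring
    rw [h3]
    rw [hj] at hc ⊢
    linear_combination h * hc
  have h4 := hf _ h2 j
  rw [if_pos rfl] at h4
  have hle : Ideal.span (Set.range f) ≤ Ideal.span (Set.range (Function.update f j h)) := by
    rw [Ideal.span_le]
    rintro _ ⟨i, rfl⟩
    by_cases hi : i = j
    · subst hi
      rw [hj]
      apply Ideal.mul_mem_left
      apply Ideal.subset_span
      exact ⟨i, Function.update_self _ _ _⟩
    · apply Ideal.subset_span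
      exact ⟨i, Function.update_of_ne hi _ _⟩
  have h5 : c j * h ∈ Ideal.span (Set.range (Function.update f j h)) := by
    apply Ideal.mul_mem_left
    apply Ideal.subset_span
    exact ⟨j, Function.update_self _ _ _⟩
  have h6 : y = (y - c j * h) + c j * h := by ring
  rw [h6]
  exact Ideal.add_mem _ (hle h4) h5

open Classical in
/-- the main consequence -/
theorem Ind.top {x : Fin e → O} {p : ℕ} (hp : 0 < p) (hx : Ind fun i => x i ^ p) {y : O}
    (hy : y * ∏ i, x i ^ (p - 1) ∈ Ideal.span (Set.range fun i => x i ^ p)) :
    y ∈ Ideal.span (Set.range x) := by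
  -- induction over finite sets
  have key : ∀ T : Finset (Fin e), Ind (fun i => if i ∈ T then x i else x i ^ p) ∧
      ∀ y, y * ∏ i ∈ T, x i ^ (p - 1) ∈ Ideal.span (Set.range fun i => x i ^ p) →
        y ∈ Ideal.span (Set.range fun i => if i ∈ T then x i else x i ^ p) := by
    intro T
    induction T using Finset.induction with
    | empty => simpa using hx
    | insert j T hj ih =>
      obtain ⟨ih1, ih2⟩ := ih
      have hupd : (fun i => if i ∈ insert j T then x i else x i ^ p) =
          Function.update (fun i => if i ∈ T then x i else x i ^ p) j (x j) := by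
        ext i
        by_cases hi : i = j
        · subst hi; simp
        · rw [Function.update_of_ne hi]
          simp [hi]
      have hval : (fun i => if i ∈ T then x i else x i ^ p) j = x j * x j ^ (p - 1) := by
        simp only [if_neg hj]
        rw [← pow_succ', Nat.sub_add_cancel hp]
      have hval' : (fun i => if i ∈ T then x i else x i ^ p) j = x j ^ (p - 1) * x j := by
        rw [hval, mul_comm]
      rw [hupd]
      refine ⟨ih1.update hval, fun y hy => ih1.cancel hval' (ih2 _ ?_)⟩
      rw [Finset.prod_insert hj, ← mul_assoc] at hy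
      exact hy
  have h1 := (key univ).2 y hy
  simpa using h1

end lech

end Pool.Agent.Q40.FF
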