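import Pool.Agent.Q40.FF.Descent

/-! Noetherian domains with flat Frobenius are integrally closed. -/

set_option autoImplicit false

open Finset

namespace Pool.Agent.Q40.FF

section normal

variable {C : Type*} [CommRing C] [IsDomain C] {p : ℕ} [hp : Fact p.Prime] [CharP C p]

omit [IsDomain C] in
/-- the colon ideals of `p`-th powers -/
theorem colon_step (h : (frobenius C p).Flat) {a b u : C} {J : Ideal C} (n : ℕ)
    (hJ : ∀ w v : C, a ^ p ^ n * w = b ^ p ^ n * v → w ∈ J ^ p ^ n) {v : C}
    (hu : a ^ p ^ (n + 1) * u = b ^ p ^ (n + 1) * v) : u ∈ J ^ p ^ (n + 1) := by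
  rw [flat_iff] at h
  obtain ⟨k, α, y, h1, h2⟩ := h 2 ![a ^ p ^ n, b ^ p ^ n] ![u, -v] (by
    rw [Fin.sum_univ_two]
    simp only [Matrix.cons_val_zero, Matrix.cons_val_one, frobenius_def]
    rw [← pow_mul, ← pow_mul, ← pow_succ]
    linear_combination hu)
  have h3 := h1 0
  simp only [Matrix.cons_val_zero] at h3
  rw [h3]
  refine Ideal.sum_mem _ fun j _ => ?_
  apply Ideal.mul_mem_right
  have h4 := h2 j
  rw [Fin.sum_univ_two] at h4
  simp only [Matrix.cons_val_zero, Matrix.cons_val_one] at h4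
  have h5 : α 0 j ∈ J ^ p ^ n := hJ _ (- α 1 j) (by linear_combination h4)
  rw [frobenius_def, pow_succ, pow_mul]
  exact Ideal.pow_mem_pow h5 p

omit [IsDomain C] in
theorem colon_pow (h : (frobenius C p).Flat) {a b : C} {J : Ideal C}
    (hJ : ∀ w v : C, a * w = b * v → w ∈ J) (n : ℕ) :
    ∀ w v : C, a ^ p ^ n * w = b ^ p ^ n * v → w ∈ J ^ p ^ n := by
  induction n with
  | zero =>
    intro w v hw
    rw [pow_zero, pow_one, pow_one] at hw
    rw [pow_zero, pow_one]
    exact hJ w v hw
  | succ n ih =>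
    intro w v hw
    exact colon_step h n ih hw

theorem isIntegrallyClosed_of_flat [IsNoetherianRing C] (h : (frobenius C p).Flat) :
    IsIntegrallyClosed C := by
  rw [isIntegrallyClosed_iff (FractionRing C)]
  intro x hx
  obtain ⟨a, b, hb, rfl⟩ := IsFractionRing.div_surjective (A := C) x
  have hb0 : algebraMap C (FractionRing C) b ≠ 0 :=
    IsFractionRing.to_map_ne_zero_of_mem_nonZeroDivisors hb
  obtain ⟨c, hc, hcn⟩ := hx.isAlmostIntegral
  -- the colon ideal
  let J : Ideal C :=
    { carrier := {w | ∃ v, a * w = b * v}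
      add_mem' := by
        rintro x y ⟨v, hv⟩ ⟨w, hw⟩
        exact ⟨v + w, by rw [mul_add, hv, hw, mul_add]⟩
      zero_mem' := ⟨0, by rw [mul_zero, mul_zero]⟩
      smul_mem' := by
        rintro r x ⟨v, hv⟩
        exact ⟨r * v, by rw [smul_eq_mul]; linear_combination r * hv⟩ }
  have hJ : ∀ w v : C, a * w = b * v → w ∈ J := fun w v h => ⟨v, h⟩
  have hinj := IsFractionRing.injective C (FractionRing C)
  by_cases htop : J = ⊤
  · have h1 : (1 : C) ∈ J := by rw [htop]; trivial
    obtain ⟨v, hv⟩ := h1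
    rw [mul_one] at hv
    refine ⟨v, ?_⟩
    rw [eq_div_iff hb0, ← map_mul, hv, mul_comm]
  · exfalso
    have h1 : ∀ n : ℕ, c ∈ J ^ n := by
      intro n
      have hn : n ≤ p ^ n := (Nat.lt_pow_self hp.out.one_lt).le
      apply Ideal.pow_le_pow_right hn
      obtain ⟨v, hv⟩ := hcn (p ^ n)
      refine colon_pow h hJ n c v ?_
      apply hinj
      rw [map_mul, map_mul, map_pow, map_pow, hv, Algebra.smul_def, div_pow]
      field_simp
    have h2 : c ∈ ⨅ n : ℕ, J ^ n := by
      rw [Ideal.mem_iInf]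
      exact h1
    rw [Ideal.iInf_pow_eq_bot_of_isDomain J htop, Ideal.mem_bot] at h2
    exact nonZeroDivisors.ne_zero hc h2

end normal

/-- smooth domains over perfect fields are integrally closed -/
theorem isIntegrallyClosed_of_smooth (p : ℕ) [hp : Fact p.Prime] {k : Type*} [Field k]
    [PerfectField k] [CharP k p] {C : Type*} [CommRing C] [IsDomain C] [Algebra k C]
    [Algebra.Smooth k C] : IsIntegrallyClosed C := by
  have h1 : CharP C p := charP_of_injective_algebraMap (algebraMap k C).injective p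
  have h2 : IsNoetherianRing C := Algebra.FiniteType.isNoetherianRing k C
  exact isIntegrallyClosed_of_flat (p := p) (flat_of_smooth (k := k) C)

end Pool.Agent.Q40.FF
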