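import Pool.Agent.Q40.FF.Mono

/-! Existence of `p`-bases when Frobenius is flat. -/

set_option autoImplicit false

open Finset

namespace Pool.Agent.Q40.FF

section mingen

variable {O : Type*} [CommRing O] [IsLocalRing O]

theorem exists_min_gen (hfg : (IsLocalRing.maximalIdeal O).FG) :
    ∃ (e : ℕ) (x : Fin e → O), Ideal.span (Set.range x) = IsLocalRing.maximalIdeal O ∧
      ∀ a : Fin e → O, ∑ i, a i * x i = 0 → ∀ i, a i ∈ IsLocalRing.maximalIdeal O := by
  classical
  have hex : ∃ e : ℕ, ∃ x : Fin e → O, Ideal.span (Set.range x) = IsLocalRing.maximalIdeal O := by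
    obtain ⟨e, x, hx⟩ := Submodule.fg_iff_exists_fin_generating_family.1 hfg
    exact ⟨e, x, hx⟩
  obtain ⟨e, ⟨x, hx⟩, hmin⟩ : ∃ e : ℕ, (∃ x : Fin e → O, Ideal.span (Set.range x) =
      IsLocalRing.maximalIdeal O) ∧ ∀ m < e, ¬ ∃ x : Fin m → O, Ideal.span (Set.range x) =
      IsLocalRing.maximalIdeal O :=
    ⟨Nat.find hex, Nat.find_spec hex, fun m hm => Nat.find_min hex hm⟩
  refine ⟨e, x, hx, ?_⟩
  intro a ha i
  by_contra hi
  have hu : IsUnit (a i) := by
    by_contra h
    exact hi ((IsLocalRing.mem_maximalIdeal _).2 h)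
  obtain ⟨e', he'⟩ : ∃ e', e = e' + 1 := ⟨e - 1, by have := i.2; omega⟩
  subst he'
  apply hmin e' (Nat.lt_succ_self _)
  refine ⟨x ∘ i.succAbove, ?_⟩
  apply le_antisymm
  · rw [← hx]
    apply Ideal.span_mono
    rintro _ ⟨j, rfl⟩
    exact ⟨_, rfl⟩
  · rw [← hx, Ideal.span_le]
    rintro _ ⟨j, rfl⟩
    by_cases hj : j = i
    · subst hj
      rw [Fin.sum_univ_succAbove _ j] at ha
      obtain ⟨u, hu'⟩ := hu
      have h1 : x j = - ∑ l, (↑u⁻¹ * a (j.succAbove l)) * x (j.succAbove l) := by
        have h2 : (↑u⁻¹ : O) * (a j * x j) = x j := by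
          rw [← hu', ← mul_assoc, Units.inv_mul, one_mul]
        have h3 : ∑ l, (↑u⁻¹ * a (j.succAbove l)) * x (j.succAbove l) =
            ↑u⁻¹ * ∑ l, a (j.succAbove l) * x (j.succAbove l) := by
          rw [Finset.mul_sum]
          exact Finset.sum_congr rfl fun l _ => by ring
        rw [h3]
        linear_combination - h2 + (↑u⁻¹ : O) * ha
      rw [SetLike.mem_coe, h1]
      apply neg_mem
      refine Ideal.sum_mem _ fun l _ => ?_
      apply Ideal.mul_mem_left
      exact Ideal.subset_span ⟨l, rfl⟩
    · obtain ⟨l, rfl⟩ := Fin.exists_succAbove_eq hj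
      exact Ideal.subset_span ⟨l, rfl⟩

end mingen

section pb

variable {O : Type*} [CommRing O] [IsLocalRing O] {p : ℕ} [hp : Fact p.Prime] [CharP O p] {e : ℕ}

omit [IsLocalRing O] in
theorem map_frob_span (x : Fin e → O) :
    (Ideal.span (Set.range x)).map (frobenius O p) = Ideal.span (Set.range fun i => x i ^ p) := by
  rw [Ideal.map_span, ← Set.range_comp]
  rfl

theorem ind_pow (hflat : (frobenius O p).Flat) {x : Fin e → O}
    (hx : Ideal.span (Set.range x) = IsLocalRing.maximalIdeal O)
    (hmin : ∀ a : Fin e → O, ∑ i, a i * x i = 0 → ∀ i, a i ∈ IsLocalRing.maximalIdeal O) :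
    Ind fun i => x i ^ p := by
  intro b hb i
  obtain ⟨k, a, y, h1, h2⟩ := (flat_iff _).1 hflat e x b (by
    rw [← hb]
    exact Finset.sum_congr rfl fun i _ => by rw [frobenius_def]; ring)
  rw [h1 i]
  refine Ideal.sum_mem _ fun j _ => ?_
  apply Ideal.mul_mem_right
  have h3 : a i j ∈ IsLocalRing.maximalIdeal O := by
    refine hmin (fun i => a i j) ?_ i
    rw [← h2 j]
    exact Finset.sum_congr rfl fun i _ => by ring
  have h4 := Ideal.mem_map_of_mem (frobenius O p) h3
  rw [← hx, map_frob_span] at h4
  exact h4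

theorem reduced_indep {x : Fin e → O}
    (hx : Ideal.span (Set.range x) = IsLocalRing.maximalIdeal O)
    (hind : Ind fun i => x i ^ p) (c : (Fin e → Fin p) → O)
    (hc : ∑ a, frobenius O p (c a) * mon x a ∈
      (IsLocalRing.maximalIdeal O).map (frobenius O p)) (a : Fin e → Fin p) :
    c a ∈ IsLocalRing.maximalIdeal O := by
  classical
  have hp0 : 0 < p := hp.out.pos
  rw [← hx, map_frob_span] at hc
  set I := Ideal.span (Set.range fun i => x i ^ p) with hI
  have key : ∀ n : ℕ, ∀ a : Fin e → Fin p, ∑ i, (a i : ℕ) = n →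
      c a ∈ IsLocalRing.maximalIdeal O := by
    intro n
    induction n using Nat.strong_induction_on with
    | _ n ih =>
      intro a ha
      set q : O := ∏ i, x i ^ (p - 1 - (a i : ℕ)) with hq
      have h1 : q * ∑ b, frobenius O p (c b) * mon x b ∈ I := Ideal.mul_mem_left _ _ hc
      rw [Finset.mul_sum, ← Finset.add_sum_erase univ _ (Finset.mem_univ a)] at h1
      have h2 : ∑ b ∈ univ.erase a, q * (frobenius O p (c b) * mon x b) ∈ I := by
        refine Ideal.sum_mem _ fun b hb => ?_
        have hne : b ≠ a := Finset.ne_of_mem_erase hb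
        rcases Nat.lt_or_ge (∑ i, (b i : ℕ)) n with hlt | hge
        · have h3 := ih _ hlt b rfl
          have h4 := Ideal.mem_map_of_mem (frobenius O p) h3
          rw [← hx, map_frob_span] at h4
          apply Ideal.mul_mem_left
          apply Ideal.mul_mem_right
          exact h4
        · -- some exponent is bigger
          obtain ⟨i, hi⟩ : ∃ i, (a i : ℕ) < (b i : ℕ) := by
            by_contra hcon
            push Not at hcon
            have h5 : ∑ i, (b i : ℕ) ≤ ∑ i, (a i : ℕ) := Finset.sum_le_sum fun i _ => hcon i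
            have h6 : ∑ i, (b i : ℕ) = ∑ i, (a i : ℕ) := le_antisymm h5 (by rw [ha]; exact hge)
            have h7 := (Finset.sum_eq_sum_iff_of_le (fun i _ => hcon i)).1 h6
            apply hne
            funext i
            exact Fin.ext (h7 i (Finset.mem_univ i))
          have h5 : x i ^ p ∣ q * mon x b := by
            rw [hq, mon, ← Finset.prod_mul_distrib]
            refine dvd_trans ?_ (Finset.dvd_prod_of_mem _ (Finset.mem_univ i))
            rw [← pow_add]
            apply pow_dvd_pow
            have := (b i).2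
            omega
          obtain ⟨w, hw⟩ := h5
          have h6 : q * (frobenius O p (c b) * mon x b) = (frobenius O p (c b) * w) * x i ^ p := by
            calc _ = frobenius O p (c b) * (q * mon x b) := by ring
              _ = _ := by rw [hw]; ring
          rw [h6]
          apply Ideal.mul_mem_left
          exact Ideal.subset_span ⟨i, rfl⟩
      have h3 : q * (frobenius O p (c a) * mon x a) ∈ I := by
        have := Ideal.sub_mem _ h1 h2
        rwa [add_sub_cancel_right] at this
      have h4 : q * (frobenius O p (c a) * mon x a) = c a ^ p * ∏ i, x i ^ (p - 1) := by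
        have h5 : q * mon x a = ∏ i, x i ^ (p - 1) := by
          rw [hq, mon, ← Finset.prod_mul_distrib]
          refine Finset.prod_congr rfl fun i _ => ?_
          rw [← pow_add]
          congr 1
          have := (a i).2
          omega
        rw [← h5, frobenius_def]
        ring
      rw [h4] at h3
      have h5 := hind.top hp0 h3
      rw [hx] at h5
      exact (IsLocalRing.maximalIdeal.isMaximal O).isPrime.mem_of_pow_mem p h5
  exact key _ a rfl

theorem reduced_span {x : Fin e → O}
    (hx : Ideal.span (Set.range x) = IsLocalRing.maximalIdeal O)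
    (hperf : ∀ y : O, ∃ c : O, y - c ^ p ∈ IsLocalRing.maximalIdeal O) (y : O) :
    ∃ c : (Fin e → Fin p) → O, y - ∑ a, frobenius O p (c a) * mon x a ∈
      (IsLocalRing.maximalIdeal O).map (frobenius O p) := by
  classical
  have hp0 : 0 < p := hp.out.pos
  set I := (IsLocalRing.maximalIdeal O).map (frobenius O p) with hI
  have hI' : I = Ideal.span (Set.range fun i => x i ^ p) := by
    rw [hI, ← hx, map_frob_span]
  -- the set of good elements
  let W : O → Prop := fun y => ∃ c : (Fin e → Fin p) → O,
    y - ∑ a, frobenius O p (c a) * mon x a ∈ I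
  have hadd : ∀ y z, W y → W z → W (y + z) := by
    rintro y z ⟨c, hc⟩ ⟨d, hd⟩
    refine ⟨fun a => c a + d a, ?_⟩
    have h1 : y + z - ∑ a, frobenius O p (c a + d a) * mon x a =
        (y - ∑ a, frobenius O p (c a) * mon x a) + (z - ∑ a, frobenius O p (d a) * mon x a) := by
      have : ∑ a, frobenius O p (c a + d a) * mon x a =
          ∑ a, frobenius O p (c a) * mon x a + ∑ a, frobenius O p (d a) * mon x a := by
        rw [← Finset.sum_add_distrib]
        exact Finset.sum_congr rfl fun a _ => by rw [map_add]; ring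
      rw [this]
      ring
    rw [h1]
    exact Ideal.add_mem _ hc hd
  have hpow : ∀ t : O, W (t ^ p) := by
    intro t
    refine ⟨fun a => if a = 0 then t else 0, ?_⟩
    have h1 : ∑ a : Fin e → Fin p, frobenius O p (if a = 0 then t else 0) * mon x a = t ^ p := by
      rw [Finset.sum_eq_single (0 : Fin e → Fin p)]
      · rw [if_pos rfl, mon_zero, mul_one, frobenius_def]
      · intro b _ hb
        rw [if_neg hb, map_zero, zero_mul]
      · intro h
        exact absurd (Finset.mem_univ _) h
    rw [h1, sub_self]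
    exact Ideal.zero_mem _
  have hmul : ∀ y, ∀ i, W y → W (y * x i) := by
    rintro y i ⟨c, hc⟩
    refine ⟨fun a => c ((shift i).symm a) *
      (if (((shift i).symm a) i : ℕ) = p - 1 then x i else 1), ?_⟩
    have h1 := reduced_mul (p := p) x i (fun a => frobenius O p (c a))
    have h2 : y * x i - ∑ a, frobenius O p (c ((shift i).symm a) *
      (if (((shift i).symm a) i : ℕ) = p - 1 then x i else 1)) * mon x a =
        (y - ∑ a, frobenius O p (c a) * mon x a) * x i := by
      rw [sub_mul, h1]
      congr 1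
      refine Finset.sum_congr rfl fun a _ => ?_
      rw [map_mul]
      congr 2
      split_ifs
      · rw [frobenius_def]
      · rw [map_one]
    rw [h2]
    exact Ideal.mul_mem_right _ _ hc
  have hsum : ∀ (s : Finset (Fin e)) (y : Fin e → O), (∀ i, W (y i)) → W (∑ i ∈ s, y i) := by
    intro s y hy
    induction s using Finset.induction with
    | empty =>
      have := hpow 0
      rw [zero_pow hp0.ne'] at this
      simpa using this
    | insert j s hj ih =>
      rw [Finset.sum_insert hj]
      exact hadd _ _ (hy j) ih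
  have hn : ∀ n : ℕ, ∀ y : O, ∃ w, W w ∧ y - w ∈ (IsLocalRing.maximalIdeal O) ^ n := by
    intro n
    induction n with
    | zero =>
      intro y
      refine ⟨0 ^ p, hpow 0, ?_⟩
      rw [pow_zero, Ideal.one_eq_top]
      trivial
    | succ n ih =>
      intro y
      obtain ⟨t, ht⟩ := hperf y
      rw [← hx] at ht
      obtain ⟨z, hz⟩ := (mem_span_iff x _).1 ht
      choose w hw1 hw2 using fun i => ih (z i)
      refine ⟨t ^ p + ∑ i, w i * x i, hadd _ _ (hpow t) (hsum _ _ fun i => hmul _ _ (hw1 i)), ?_⟩
      have h1 : y - (t ^ p + ∑ i, w i * x i) = ∑ i, (z i - w i) * x i := by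
        have : ∑ i, (z i - w i) * x i = ∑ i, z i * x i - ∑ i, w i * x i := by
          rw [← Finset.sum_sub_distrib]
          exact Finset.sum_congr rfl fun i _ => by ring
        rw [this, ← hz]
        ring
      rw [h1, pow_succ]
      refine Ideal.sum_mem _ fun i _ => ?_
      refine Ideal.mul_mem_mul (hw2 i) ?_
      rw [← hx]
      exact Ideal.subset_span ⟨i, rfl⟩
  have hle : ∃ n, (IsLocalRing.maximalIdeal O) ^ n ≤ I := by
    apply Ideal.exists_pow_le_of_le_radical_of_fg
    · rw [← hx, Ideal.span_le]
      rintro _ ⟨i, rfl⟩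
      refine ⟨p, ?_⟩
      rw [hI']
      exact Ideal.subset_span ⟨i, rfl⟩
    · rw [← hx]
      exact ⟨Finset.univ.image x, by simp⟩
  obtain ⟨n, hn'⟩ := hle
  obtain ⟨w, ⟨c, hc⟩, hw⟩ := hn n y
  refine ⟨c, ?_⟩
  have h1 : y - ∑ a, frobenius O p (c a) * mon x a = (y - w) +
      (w - ∑ a, frobenius O p (c a) * mon x a) := by ring
  rw [h1]
  exact Ideal.add_mem _ (hn' hw) hc

/-- flat Frobenius gives a `p`-basis -/
theorem exists_pbasis [IsNoetherianRing O] (hflat : (frobenius O p).Flat)
    (hperf : ∀ y : O, ∃ c : O, y - c ^ p ∈ IsLocalRing.maximalIdeal O)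
    {κ : Type*} [Fintype κ] (z : κ → O)
    (hz : ∀ y, ∃ c : κ → O, y = ∑ j, frobenius O p (c j) * z j) :
    ∃ (e : ℕ) (x : Fin e → O), (∀ c : (Fin e → Fin p) → O,
      ∑ a, frobenius O p (c a) * mon x a = 0 → c = 0) ∧
      ∀ y, ∃ c : (Fin e → Fin p) → O, y = ∑ a, frobenius O p (c a) * mon x a := by
  obtain ⟨e, x, hx, hmin⟩ := exists_min_gen (O := O) (IsNoetherian.noetherian _)
  have hind := ind_pow hflat hx hmin
  refine ⟨e, x, fun c hc => ?_, fun y => ?_⟩
  · exact indep_of_flat (frobenius O p) hflat (fun a => mon x a)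
      (fun c hc a => reduced_indep hx hind c hc a) c hc
  · exact span_of_finite (frobenius O p) z hz (fun a => mon x a)
      (fun y => reduced_span hx hperf y) y

end pb

end Pool.Agent.Q40.FF
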